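import Pool.Agent.Y234.FP.Stm

/-!
# The ideal contains the relations; the parameters are unique

(helper293, job FP-GE of helper234.)
-/

set_option autoImplicit false

open MvPolynomial Pool.Agent.Results.MP_94ed3e_ag.FatPoint

namespace Pool.Agent.Y293.FP

open Pool.Agent.Y234.FP

universe u

variable {T : Type u} [CommRing T] {r m : ℕ}

theorem wt_zero : wt r 0 = (1, 0) := rfl

theorem wt_one : wt r 1 = (1, 1) := rfl

theorem wt_ss (i : Fin r) : wt r i.succ.succ = (0, 1) := rfl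

theorem pt_zero (β : Fin r → T) : pt β 0 = 1 := rfl

theorem pt_one (β : Fin r → T) : pt β 1 = 1 := rfl

theorem pt_ss (β : Fin r → T) (i : Fin r) : pt β i.succ.succ = -β i := rfl

/-- type 2 functionals on homogeneous polynomials -/
theorem fn_inr (β : Fin r → T) (p : Fin m × Fin (m + 1)) {F : MvPolynomial (Fin (r + 2)) T}
    {A B : ℕ} (hF : F ∈ weightedHomogeneousSubmodule T (wt r) ((A : ℤ), (B : ℤ))) :
    ((m + (p.1 : ℕ) = A ∧ (p.2 : ℕ) = B) → fn m β (Sum.inr p) F = aeval (pt β) F) ∧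
      (¬ (m + (p.1 : ℕ) = A ∧ (p.2 : ℕ) = B) → fn m β (Sum.inr p) F = 0) := by
  have h1 : fn m β (Sum.inr p) F = aeval (pt β)
      (weightedHomogeneousComponent (wt r) (dg (Sum.inr p : Ix r m)) F) := rfl
  rw [h1, weightedHomogeneousComponent_of_mem hF]
  have h2 : ((A : ℤ), (B : ℤ)) = dg (Sum.inr p : Ix r m) ↔
      (m + (p.1 : ℕ) = A ∧ (p.2 : ℕ) = B) := by
    show ((A : ℤ), (B : ℤ)) = (((m + (p.1 : ℕ) : ℕ) : ℤ), ((p.2 : ℕ) : ℤ)) ↔ _
    rw [Prod.mk.injEq, Nat.cast_inj, Nat.cast_inj]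
    exact ⟨fun h => ⟨h.1.symm, h.2.symm⟩, fun h => ⟨h.1.symm, h.2.symm⟩⟩
  constructor
  · intro h
    rw [if_pos]
    first
      | exact h2.2 h
      | exact (h2.2 h).symm
  · intro h
    rw [if_neg, map_zero]
    intro h3
    apply h
    apply h2.1
    first
      | exact h3
      | exact h3.symm

theorem mono_mem (hWE : St_WE) (u : Fin (r + 2) →₀ ℕ) :
    monomial u (1 : T) ∈ weightedHomogeneousSubmodule T (wt r) ((ax u : ℤ), (bx u : ℤ)) :=
  isWeightedHomogeneous_monomial _ _ _ (hWE r u)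

/-- the third relation is homogeneous -/
theorem rel_mem (hWE : St_WE) (v : Fin (r + 2) →₀ ℕ) (i : Fin r) (c : T) :
    monomial v (1 : T) * (X 0 * X i.succ.succ + C c * X 1) ∈
      weightedHomogeneousSubmodule T (wt r) (((ax v + 1 : ℕ) : ℤ), ((bx v + 1 : ℕ) : ℤ)) := by
  have h1 : IsWeightedHomogeneous (wt r) (monomial v (1 : T)) ((ax v : ℤ), (bx v : ℤ)) :=
    isWeightedHomogeneous_monomial _ _ _ (hWE r v)
  have h2 : IsWeightedHomogeneous (wt r) (X 0 * X i.succ.succ : MvPolynomial (Fin (r + 2)) T)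
      (wt r 0 + wt r i.succ.succ) :=
    (isWeightedHomogeneous_X T (wt r) 0).mul (isWeightedHomogeneous_X T (wt r) i.succ.succ)
  have h3 : IsWeightedHomogeneous (wt r) (C c * X 1 : MvPolynomial (Fin (r + 2)) T)
      (0 + wt r 1) :=
    (isWeightedHomogeneous_C (wt r) c).mul (isWeightedHomogeneous_X T (wt r) 1)
  rw [wt_zero, wt_ss] at h2
  rw [wt_one] at h3
  have e2 : ((1, 0) + (0, 1) : ℤ × ℤ) = (1, 1) := by simp
  have e3 : (0 + (1, 1) : ℤ × ℤ) = (1, 1) := by simp
  rw [e2] at h2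
  rw [e3] at h3
  have h4 := h1.mul (h2.add h3)
  have e4 : (((ax v : ℤ), (bx v : ℤ)) + (1, 1) : ℤ × ℤ) =
      (((ax v + 1 : ℕ) : ℤ), ((bx v + 1 : ℕ) : ℤ)) := by
    rw [Prod.mk_add_mk]
    push_cast
    rfl
  rw [e4] at h4
  exact h4

theorem rel_val (β : Fin r → T) (v : Fin (r + 2) →₀ ℕ) (i : Fin r) (c : T) :
    aeval (pt β) (monomial v (1 : T) * (X 0 * X i.succ.succ + C c * X 1)) =
      aeval (pt β) (monomial v (1 : T)) * (-β i + c) := by
  rw [map_mul, map_add, map_mul, map_mul, aeval_X, aeval_X, aeval_X, pt_zero, pt_one, pt_ss,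
    aeval_C, Algebra.algebraMap_self_apply, one_mul, mul_one]

/-- the value of a monomial -/
theorem mono_val (β : Fin r → T) (u : Fin (r + 2) →₀ ℕ) :
    aeval (pt β) (monomial u (1 : T)) = ∏ i : Fin r, (-β i) ^ u i.succ.succ := by
  rw [aeval_monomial, map_one, one_mul, Finsupp.prod_fintype _ _ (fun i => pow_zero _),
    Fin.prod_univ_succ, Fin.prod_univ_succ]
  have h0 : pt β 0 = 1 := rfl
  have h1 : pt β (Fin.succ 0) = 1 := rfl
  rw [h0, h1, one_pow, one_pow, one_mul, one_mul]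
  rfl

theorem toE_apply (w : Ix1 r m) (j : Fin (r + 2)) : toE w j = (w.1 j : ℕ) := rfl

theorem ax_toE (w : Ix1 r m) : ax (toE w) < m := w.2.1

theorem bx_toE (w : Ix1 r m) : bx (toE w) ≤ m := w.2.2.1

theorem yd_toE (w : Ix1 r m) : yd (toE w) < m := w.2.2.2

theorem fn_inl (β : Fin r → T) (w : Ix1 r m) (F : MvPolynomial (Fin (r + 2)) T) :
    fn m β (Sum.inl w) F = coeff (toE w) F := rfl

/-- the third relations are in the ideal -/
theorem rel_mem_I (hWE : St_WE) (β : Fin r → T) {I : Ideal (MvPolynomial (Fin (r + 2)) T)}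
    (hI : IsI m β I) (v : Fin (r + 2) →₀ ℕ) (i : Fin r) (h1 : m ≤ ax v + 1) :
    monomial v (1 : T) * (X 0 * X i.succ.succ + C (β i) * X 1) ∈ I := by
  rw [hI]
  have hg := rel_mem hWE v i (β i)
  rintro (w | p)
  · rw [fn_inl]
    by_contra hc
    have h2 := hg hc
    rw [hWE] at h2
    have h3 : (ax (toE w) : ℤ) = ((ax v + 1 : ℕ) : ℤ) := congrArg Prod.fst h2
    have h4 := ax_toE w
    have h5 : ax (toE w) = ax v + 1 := by exact_mod_cast h3
    omega
  · by_cases h : m + (p.1 : ℕ) = ax v + 1 ∧ (p.2 : ℕ) = bx v + 1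
    · rw [(fn_inr β p hg).1 h, rel_val, neg_add_cancel, mul_zero]
    · exact (fn_inr β p hg).2 h

theorem t_GE (hWE : St_WE) : St_GE.{u} := by
  intro T _ r m β hm hN I hI
  refine ⟨fun u hu => ?_, fun u hu => ?_, fun v i h1 _ _ => rel_mem_I hWE β hI v i h1⟩
  · rw [hI]
    rintro (w | p)
    · rw [fn_inl, coeff_monomial, if_neg]
      intro h
      have h1 := ax_toE w
      have h2 := bx_toE w
      rw [← h] at h1 h2
      omega
    · refine (fn_inr β p (mono_mem hWE u)).2 fun h => ?_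
      have h1 := p.1.2
      have h2 := p.2.2
      omega
  · rw [hI]
    rintro (w | p)
    · rw [fn_inl, coeff_monomial, if_neg]
      intro h
      have h1 := yd_toE w
      rw [← h] at h1
      omega
    · by_cases h : m + (p.1 : ℕ) = ax u ∧ (p.2 : ℕ) = bx u
      · rw [(fn_inr β p (mono_mem hWE u)).1 h, mono_val]
        have h2 := p.2.2
        have h3 : bx u = u 1 + yd u := rfl
        have h4 : yd u = m := by omega
        have h5 := hN (fun i => u i.succ.succ) h4
        have h6 : ∏ i : Fin r, (-β i) ^ u i.succ.succ =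
            (∏ i : Fin r, (-1 : T) ^ u i.succ.succ) * ∏ i : Fin r, β i ^ u i.succ.succ := by
          rw [← Finset.prod_mul_distrib]
          exact Finset.prod_congr rfl fun i _ => by rw [← mul_pow, neg_one_mul]
        rw [h6, h5, mul_zero]
      · exact (fn_inr β p (mono_mem hWE u)).2 h

theorem t_UQ (hWE : St_WE) : St_UQ.{u} := by
  intro T _ r m β β' hm I hI hI'
  funext i
  obtain ⟨v, hv⟩ : ∃ v : Fin (r + 2) →₀ ℕ, v = Finsupp.single 0 (m - 1) := ⟨_, rfl⟩
  have h01 : (1 : Fin (r + 2)) ≠ 0 := by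
    intro h
    exact absurd (congrArg Fin.val h) (by simp)
  have hv0 : v 0 = m - 1 := by rw [hv, Finsupp.single_eq_same]
  have hv1 : v 1 = 0 := by rw [hv, Finsupp.single_eq_of_ne h01]
  have hvs : ∀ j : Fin r, v j.succ.succ = 0 := fun j => by
    rw [hv, Finsupp.single_eq_of_ne (Fin.succ_ne_zero _)]
  have ha : ax v = m - 1 := by
    show v 0 + v 1 = m - 1
    rw [hv0, hv1, add_zero]
  have hb : bx v = 0 := by
    show v 1 + ∑ j : Fin r, v j.succ.succ = 0
    rw [hv1, Finset.sum_eq_zero fun j _ => hvs j, add_zero]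
  have h1 := rel_mem_I hWE β hI v i (by omega)
  have h2 := (hI' _).1 h1 (Sum.inr (⟨0, by omega⟩, ⟨1, by omega⟩))
  rw [(fn_inr β' _ (rel_mem hWE v i (β i))).1 ⟨by
    show m + 0 = ax v + 1
    omega, by
    show 1 = bx v + 1
    omega⟩, rel_val, mono_val] at h2
  rw [Finset.prod_eq_one fun j _ => by rw [hvs j, pow_zero], one_mul] at h2
  exact (sub_eq_zero.1 (by rw [sub_eq_neg_add]; exact h2))

end Pool.Agent.Y293.FP
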